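import Mathlib

/-!
The LIFT lemma: finitely many elements of a field `K` of characteristic zero with a derivation
`D` are moved to power series over an algebraically closed field `F` (of any characteristic) in
such a way that `D` becomes the coefficient of `τ`.
-/

set_option autoImplicit false

open Polynomial

namespace Pool.Agent.Lib.MP_524519_ag.DU4.H63

section adj

variable {A0 K : Type*} [CommRing A0] [Field K] [Algebra A0 K]

/-- `B[s]` -/
noncomputable def adj (B : Subalgebra A0 K) (s : K) : Subalgebra A0 K :=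
  ((Polynomial.aeval (R := B) s).range).restrictScalars A0

theorem mem_adj {B : Subalgebra A0 K} {s x : K} :
    x ∈ adj B s ↔ ∃ Q : B[X], aeval s Q = x := Iff.rfl

theorem aeval_mem_adj (B : Subalgebra A0 K) (s : K) (Q : B[X]) : aeval s Q ∈ adj B s :=
  ⟨Q, rfl⟩

theorem le_adj (B : Subalgebra A0 K) (s : K) : B ≤ adj B s := fun b hb =>
  ⟨Polynomial.C ⟨b, hb⟩, by simp⟩

theorem self_mem_adj (B : Subalgebra A0 K) (s : K) : s ∈ adj B s :=
  ⟨Polynomial.X, by simp⟩

theorem adj_le {B E : Subalgebra A0 K} {s : K} (hB : B ≤ E) (hs : s ∈ E) : adj B s ≤ E := by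
  rintro x ⟨Q, rfl⟩
  induction Q using Polynomial.induction_on' with
  | add p q hp hq =>
    have : (aeval (R := B) s).toRingHom (p + q) =
      (aeval (R := B) s).toRingHom p + (aeval (R := B) s).toRingHom q := map_add _ _ _
    rw [this]
    exact add_mem hp hq
  | monomial n a =>
    have : (aeval (R := B) s).toRingHom (monomial n a) = a * s ^ n := by
      simp [aeval_monomial]
    rw [this]
    exact mul_mem (hB a.2) (pow_mem hs n)

/-- extension of a ring homomorphism to `B[s]` -/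
theorem ext_hom (B : Subalgebra A0 K) (s : K) {R : Type*} [CommRing R] (χ : B →+* R) (r : R)
    (h : ∀ Q : B[X], aeval s Q = 0 → Q.eval₂ χ r = 0) :
    ∃ χ' : adj B s →+* R, ∀ (Q : B[X]) (hQ : aeval s Q ∈ adj B s),
      χ' ⟨aeval s Q, hQ⟩ = Q.eval₂ χ r := by
  let f : B[X] →+* adj B s := (aeval (R := B) s).toRingHom.codRestrict (adj B s)
    (fun Q => aeval_mem_adj B s Q)
  have hf : Function.Surjective f := by
    rintro ⟨x, Q, rfl⟩
    exact ⟨Q, rfl⟩
  have hk : RingHom.ker f ≤ RingHom.ker (eval₂RingHom χ r) := by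
    intro Q hQ
    rw [RingHom.mem_ker] at hQ ⊢
    have h1 : aeval s Q = 0 := congrArg Subtype.val hQ
    exact h Q h1
  refine ⟨f.liftOfSurjective hf ⟨eval₂RingHom χ r, hk⟩, fun Q hQ => ?_⟩
  exact RingHom.liftOfRightInverse_comp_apply f _ _ ⟨eval₂RingHom χ r, hk⟩ Q

theorem ext_hom_spec {B : Subalgebra A0 K} {s : K} {R : Type*} [CommRing R] {χ : B →+* R} {r : R}
    {χ' : adj B s →+* R} (h : ∀ (Q : B[X]) (hQ : aeval s Q ∈ adj B s),
      χ' ⟨aeval s Q, hQ⟩ = Q.eval₂ χ r) :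
    (∀ b (hb : b ∈ B), χ' ⟨b, le_adj B s hb⟩ = χ ⟨b, hb⟩) ∧
      χ' ⟨s, self_mem_adj B s⟩ = r := by
  constructor
  · intro b hb
    have h1 := h (Polynomial.C ⟨b, hb⟩) (aeval_mem_adj B s _)
    rw [eval₂_C] at h1
    rw [← h1]
    congr 2
    simp
  · have h1 := h (Polynomial.X) (aeval_mem_adj B s _)
    rw [eval₂_X] at h1
    rw [← h1]
    congr 2
    simp

/-- pseudo-division by a polynomial of minimal degree -/
theorem eval₂_eq_zero_of_min {B : Subalgebra A0 K} {s : K} {R : Type*} [CommRing R]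
    {χ : B →+* R} {r : R} {P : B[X]} (hP0 : P ≠ 0) (hPs : aeval s P = 0)
    (hmin : ∀ Q : B[X], Q ≠ 0 → aeval s Q = 0 → P.natDegree ≤ Q.natDegree)
    (hu : IsUnit (χ P.leadingCoeff)) (hr : P.eval₂ χ r = 0) :
    ∀ (n : ℕ) (Q : B[X]), Q.degree < n → aeval s Q = 0 → Q.eval₂ χ r = 0 := by
  intro n
  induction n with
  | zero =>
    intro Q hQ _
    have : Q = 0 := by
      rw [← Polynomial.degree_eq_bot]
      exact Nat.WithBot.lt_zero_iff.1 (by simpa using hQ)
    rw [this, eval₂_zero]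
  | succ n ih =>
    intro Q hQ hQs
    by_cases hQ0 : Q = 0
    · rw [hQ0, eval₂_zero]
    have hdeg := hmin Q hQ0 hQs
    have hl : P.leadingCoeff ≠ 0 := leadingCoeff_ne_zero.2 hP0
    have hlQ : Q.leadingCoeff ≠ 0 := leadingCoeff_ne_zero.2 hQ0
    obtain ⟨Q', hQ'⟩ : ∃ Q' : B[X], Q' = Polynomial.C P.leadingCoeff * Q -
      Polynomial.C Q.leadingCoeff * X ^ (Q.natDegree - P.natDegree) * P := ⟨_, rfl⟩
    have hd1 : (Polynomial.C P.leadingCoeff * Q).degree = Q.degree := by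
      rw [degree_mul, degree_C hl, zero_add]
    have hlt : Q'.degree < Q.degree := by
      rw [← hd1, hQ']
      apply degree_sub_lt_left
      · rw [hd1, degree_mul, degree_mul, degree_C hlQ, zero_add, degree_X_pow,
          degree_eq_natDegree hQ0, degree_eq_natDegree hP0]
        norm_cast
        omega
      · exact mul_ne_zero (Polynomial.C_ne_zero.2 hl) hQ0
      · rw [leadingCoeff_mul, leadingCoeff_mul, leadingCoeff_mul, leadingCoeff_C, leadingCoeff_C,
          leadingCoeff_X_pow, mul_one, mul_comm]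
    have hlt' : Q'.degree < n := by
      refine lt_of_lt_of_le hlt ?_
      rw [degree_eq_natDegree hQ0] at hQ ⊢
      have : Q.natDegree < n + 1 := by exact_mod_cast hQ
      have : Q.natDegree ≤ n := by omega
      exact_mod_cast this
    have hs' : aeval s Q' = 0 := by
      rw [hQ', map_sub, map_mul, map_mul, hQs, hPs, mul_zero, mul_zero, sub_zero]
    have h1 := ih Q' hlt' hs'
    rw [hQ', eval₂_sub, eval₂_mul, eval₂_mul, hr, mul_zero, sub_zero, eval₂_C] at h1
    exact (hu.mul_right_eq_zero).1 h1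

theorem exists_min {B : Subalgebra A0 K} {s : K} (h : ∃ Q : B[X], Q ≠ 0 ∧ aeval s Q = 0) :
    ∃ P : B[X], P ≠ 0 ∧ aeval s P = 0 ∧
      ∀ Q : B[X], Q ≠ 0 → aeval s Q = 0 → P.natDegree ≤ Q.natDegree := by
  classical
  have h' : ∃ n, ∃ Q : B[X], Q ≠ 0 ∧ aeval s Q = 0 ∧ Q.natDegree = n := by
    obtain ⟨Q, h1, h2⟩ := h
    exact ⟨_, Q, h1, h2, rfl⟩
  obtain ⟨P, h1, h2, h3⟩ := Nat.find_spec h'
  refine ⟨P, h1, h2, fun Q hQ hQs => ?_⟩
  rw [h3]
  exact Nat.find_min' h' ⟨Q, hQ, hQs, rfl⟩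

theorem natDegree_pos_of_min {B : Subalgebra A0 K} {s : K} {P : B[X]} (hP0 : P ≠ 0)
    (hPs : aeval s P = 0) : 0 < P.natDegree := by
  rcases Nat.eq_zero_or_pos P.natDegree with h | h
  · exfalso
    rw [eq_C_of_natDegree_eq_zero h, aeval_C, Subalgebra.algebraMap_def] at hPs
    apply hP0
    rw [eq_C_of_natDegree_eq_zero h]
    have : P.coeff 0 = 0 := Subtype.ext hPs
    rw [this, Polynomial.C_0]
  · exact h

theorem derivative_ne_of_min [CharZero K] {B : Subalgebra A0 K} {s : K} {P : B[X]} (hP0 : P ≠ 0)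
    (hPs : aeval s P = 0)
    (hmin : ∀ Q : B[X], Q ≠ 0 → aeval s Q = 0 → P.natDegree ≤ Q.natDegree) :
    aeval s (derivative P) ≠ 0 := by
  intro h
  have hpos := natDegree_pos_of_min hP0 hPs
  have hlt : (derivative P).natDegree < P.natDegree := natDegree_derivative_lt (by omega)
  by_cases h0 : derivative P = 0
  · have : CharZero B := ⟨fun a b hab => by
      have : ((a : B) : K) = ((b : B) : K) := congrArg Subtype.val hab
      exact_mod_cast this⟩
    have := derivative_eq_zero.1 h0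
    omega
  · have := hmin _ h0 h
    omega

end adj

section hensel

variable {F : Type*} [Field F]

theorem isAdic : IsAdicComplete (Ideal.span {(PowerSeries.X : PowerSeries F)}) (PowerSeries F) :=
  inferInstance

theorem mem_span_X {f : PowerSeries F} :
    f ∈ Ideal.span {(PowerSeries.X : PowerSeries F)} ↔ PowerSeries.constantCoeff f = 0 := by
  rw [Ideal.mem_span_singleton, PowerSeries.X_dvd_iff]

/-- Hensel's lemma over `F⟦τ⟧` for polynomials whose leading coefficient is a unit -/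
theorem hensel' (f : (PowerSeries F)[X]) (hl : PowerSeries.constantCoeff f.leadingCoeff ≠ 0)
    (z : F) (h0 : PowerSeries.constantCoeff (f.eval (PowerSeries.C z)) = 0)
    (h1 : PowerSeries.constantCoeff ((derivative f).eval (PowerSeries.C z)) ≠ 0) :
    ∃ r : PowerSeries F, f.eval r = 0 ∧ PowerSeries.constantCoeff r = z := by
  have hH : HenselianRing (PowerSeries F) (Ideal.span {(PowerSeries.X : PowerSeries F)}) :=
    inferInstance
  have hu : IsUnit f.leadingCoeff := by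
    rw [PowerSeries.isUnit_iff_constantCoeff]
    exact isUnit_iff_ne_zero.2 hl
  obtain ⟨v, hv⟩ := hu.exists_left_inv
  have hv0 : PowerSeries.constantCoeff v ≠ 0 := by
    intro h
    have := congrArg PowerSeries.constantCoeff hv
    rw [map_mul, h, zero_mul, map_one] at this
    exact zero_ne_one this
  have hm : (Polynomial.C v * f).Monic := by
    rw [Monic, leadingCoeff_mul, leadingCoeff_C, hv]
  have e0 : PowerSeries.constantCoeff ((Polynomial.C v * f).eval (PowerSeries.C z)) = 0 := by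
    rw [eval_mul, map_mul, h0, mul_zero]
  have e1 : PowerSeries.constantCoeff
      ((derivative (Polynomial.C v * f)).eval (PowerSeries.C z)) ≠ 0 := by
    rw [derivative_C_mul, eval_mul, map_mul, eval_C]
    exact mul_ne_zero hv0 h1
  obtain ⟨r, hr, hr'⟩ := hH.is_henselian (Polynomial.C v * f) hm (PowerSeries.C z)
    (mem_span_X.2 e0) (by
      apply IsUnit.map
      rw [PowerSeries.isUnit_iff_constantCoeff]
      exact isUnit_iff_ne_zero.2 e1)
  refine ⟨r, ?_, ?_⟩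
  · have h2 : v * f.eval r = 0 := by
      have := hr
      rwa [IsRoot, eval_mul, eval_C] at this
    have h3 : v ≠ 0 := by
      rintro rfl
      exact hv0 (map_zero _)
    exact (mul_eq_zero.1 h2).resolve_left h3
  · have := mem_span_X.1 hr'
    rw [map_sub, PowerSeries.constantCoeff_C] at this
    exact sub_eq_zero.1 this

end hensel

section step

variable {A0 K : Type*} [CommRing A0] [Field K] [Algebra A0 K]

/-- the elements `x` of `M` with `D x ∈ M` -/
def dsub (D : Derivation A0 K K) (M : Subalgebra A0 K) : Subalgebra A0 K where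
  carrier := {x | x ∈ M ∧ D x ∈ M}
  mul_mem' := by
    rintro x y ⟨hx, hx'⟩ ⟨hy, hy'⟩
    refine ⟨mul_mem hx hy, ?_⟩
    rw [Derivation.leibniz, smul_eq_mul, smul_eq_mul]
    exact add_mem (mul_mem hx hy') (mul_mem hy hx')
  add_mem' := by
    rintro x y ⟨hx, hx'⟩ ⟨hy, hy'⟩
    refine ⟨add_mem hx hy, ?_⟩
    rw [map_add]
    exact add_mem hx' hy'
  algebraMap_mem' := by
    intro a
    refine ⟨algebraMap_mem M a, ?_⟩
    rw [Derivation.map_algebraMap]
    exact zero_mem M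

/-- the key computation -/
theorem key (D : Derivation A0 K K) {B M : Subalgebra A0 K} (hB : B ≤ M) (hD : ∀ b ∈ B, D b ∈ M)
    {s : K} (hs : s ∈ M) (hDs : D s ∈ M) {F : Type*} [Field F] (ψ : M →+* F)
    (φ : B →+* PowerSeries F)
    (h0 : ∀ b : B, PowerSeries.constantCoeff (φ b) = ψ ⟨b, hB b.2⟩)
    (h1 : ∀ b : B, PowerSeries.coeff 1 (φ b) = ψ ⟨D b, hD b b.2⟩)
    (r : PowerSeries F) (hr : PowerSeries.constantCoeff r = ψ ⟨s, hs⟩) (Q : B[X]) :
    ∃ (m0 : aeval s Q ∈ M) (m1 : D (aeval s Q) ∈ M) (m2 : aeval s (derivative Q) ∈ M),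
      PowerSeries.constantCoeff (Q.eval₂ φ r) = ψ ⟨aeval s Q, m0⟩ ∧
      PowerSeries.coeff 1 (Q.eval₂ φ r) - ψ ⟨D (aeval s Q), m1⟩ =
        ψ ⟨aeval s (derivative Q), m2⟩ * (PowerSeries.coeff 1 r - ψ ⟨D s, hDs⟩) := by
  induction Q using Polynomial.induction_on' with
  | add p q hp hq =>
    obtain ⟨a0, a1, a2, a3, a4⟩ := hp
    obtain ⟨b0, b1, b2, b3, b4⟩ := hq
    refine ⟨by rw [map_add]; exact add_mem a0 b0, by rw [map_add, map_add]; exact add_mem a1 b1,
      by rw [map_add, map_add]; exact add_mem a2 b2, ?_, ?_⟩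
    · rw [eval₂_add, map_add, a3, b3, ← map_add]
      congr 1
      exact Subtype.ext (by simp)
    · rw [eval₂_add, map_add]
      have e1 : ψ ⟨D (aeval s (p + q)), by rw [map_add, map_add]; exact add_mem a1 b1⟩ =
          ψ ⟨D (aeval s p), a1⟩ + ψ ⟨D (aeval s q), b1⟩ :=
        (congrArg ψ (Subtype.ext (by simp))).trans (map_add ψ _ _)
      have e2 : ψ ⟨aeval s (derivative (p + q)), by rw [map_add, map_add]; exact add_mem a2 b2⟩ =
          ψ ⟨aeval s (derivative p), a2⟩ + ψ ⟨aeval s (derivative q), b2⟩ :=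
        (congrArg ψ (Subtype.ext (by simp))).trans (map_add ψ _ _)
      rw [e1, e2, add_mul, ← a4, ← b4]
      ring
  | monomial n a =>
    have hpow : PowerSeries.coeff 1 (r ^ n) =
        n * (PowerSeries.constantCoeff r) ^ (n - 1) * PowerSeries.coeff 1 r := by
      rw [PowerSeries.coeff_one_pow]
      ring
    have m0 : aeval s (monomial n a) ∈ M := by
      rw [aeval_monomial]
      exact mul_mem (hB a.2) (pow_mem hs n)
    have eD : D (aeval s (monomial n a)) = a * (n * s ^ (n - 1) * D s) + s ^ n * D a := by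
      rw [aeval_monomial, show algebraMap B K a = (a : K) from rfl]
      rw [Derivation.leibniz, Derivation.leibniz_pow]
      simp only [smul_eq_mul, nsmul_eq_mul]
      ring
    have m1 : D (aeval s (monomial n a)) ∈ M := by
      rw [eD]
      exact add_mem (mul_mem (hB a.2) (mul_mem (mul_mem (natCast_mem M n) (pow_mem hs _)) hDs))
        (mul_mem (pow_mem hs n) (hD a a.2))
    have e2 : aeval s (derivative (monomial n a)) = a * n * s ^ (n - 1) := by
      rw [derivative_monomial, aeval_monomial]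
      simp
    have m2 : aeval s (derivative (monomial n a)) ∈ M := by
      rw [e2]
      exact mul_mem (mul_mem (hB a.2) (natCast_mem M n)) (pow_mem hs _)
    refine ⟨m0, m1, m2, ?_, ?_⟩
    · rw [eval₂_monomial, map_mul, map_pow, h0, hr, ← map_pow, ← map_mul]
      congr 1
      exact Subtype.ext (by simp [aeval_monomial])
    · have c1 : ψ ⟨D (aeval s (monomial n a)), m1⟩ =
          ψ ⟨a, hB a.2⟩ * (n * ψ ⟨s, hs⟩ ^ (n - 1) * ψ ⟨D s, hDs⟩) +
            ψ ⟨s, hs⟩ ^ n * ψ ⟨D a, hD a a.2⟩ := by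
        rw [← map_natCast ψ n]
        simp only [← map_pow, ← map_mul, ← map_add]
        congr 1
        exact Subtype.ext (eD.trans (by simp))
      have c2 : ψ ⟨aeval s (derivative (monomial n a)), m2⟩ =
          ψ ⟨a, hB a.2⟩ * n * ψ ⟨s, hs⟩ ^ (n - 1) := by
        rw [← map_natCast ψ n]
        simp only [← map_pow, ← map_mul]
        congr 1
        exact Subtype.ext (e2.trans (by simp))
      rw [c1, c2, eval₂_monomial, PowerSeries.coeff_one_mul, map_pow, hpow, h0, h1, hr]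
      ring

end step

section good

variable {A0 K : Type*} [CommRing A0] [Field K] [Algebra A0 K]

/-- every homomorphism `M → F` lifts to `B → F⟦τ⟧` -/
def Good (D : Derivation A0 K K) (B0 B M : Subalgebra A0 K) : Prop :=
  ∃ (hB0 : B0 ≤ B) (hB : B ≤ M) (hD : ∀ b ∈ B, D b ∈ M), ∀ (F : Type) [Field F] (ψ : M →+* F),
    ∃ φ : B →+* PowerSeries F,
      (∀ b : B, PowerSeries.constantCoeff (φ b) = ψ ⟨b, hB b.2⟩) ∧
      (∀ b : B, PowerSeries.coeff 1 (φ b) = ψ ⟨D b, hD b b.2⟩) ∧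
      ∀ b (hb : b ∈ B0), φ ⟨b, hB0 hb⟩ = PowerSeries.C (ψ ⟨b, hB (hB0 hb)⟩)

theorem good_start (D : Derivation A0 K K) (B0 : Subalgebra A0 K) (h0 : ∀ b ∈ B0, D b = 0) :
    Good D B0 B0 B0 := by
  refine ⟨le_refl _, le_refl _, fun b hb => by rw [h0 b hb]; exact zero_mem _,
    fun F _ ψ => ⟨(PowerSeries.C).comp ψ, fun b => ?_, fun b => ?_, fun b hb => rfl⟩⟩
  · simp
  · have e : (⟨D b, by rw [h0 b b.2]; exact zero_mem _⟩ : B0) = 0 := Subtype.ext (h0 b b.2)
    rw [e, map_zero, RingHom.comp_apply, PowerSeries.coeff_C, if_neg one_ne_zero]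

theorem good_mono {D : Derivation A0 K K} {B0 B M M' : Subalgebra A0 K} (h : Good D B0 B M)
    (hM : M ≤ M') : Good D B0 B M' := by
  obtain ⟨hB0, hB, hD, h⟩ := h
  refine ⟨hB0, hB.trans hM, fun b hb => hM (hD b hb), fun F _ ψ => ?_⟩
  obtain ⟨φ, h1, h2, h3⟩ := h F (ψ.comp (Subalgebra.inclusion hM).toRingHom)
  exact ⟨φ, h1, h2, h3⟩

/-- extension of `φ` by the image `r` of `s` -/
theorem good_ext {D : Derivation A0 K K} {B0 B M : Subalgebra A0 K} (hB0 : B0 ≤ B) (hB : B ≤ M)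
    (hD : ∀ b ∈ B, D b ∈ M) {s : K} (hs : s ∈ M) (hDs : D s ∈ M) {F : Type} [Field F]
    (ψ : M →+* F) (φ : B →+* PowerSeries F)
    (h0 : ∀ b : B, PowerSeries.constantCoeff (φ b) = ψ ⟨b, hB b.2⟩)
    (h1 : ∀ b : B, PowerSeries.coeff 1 (φ b) = ψ ⟨D b, hD b b.2⟩)
    (h2 : ∀ b (hb : b ∈ B0), φ ⟨b, hB0 hb⟩ = PowerSeries.C (ψ ⟨b, hB (hB0 hb)⟩))
    (r : PowerSeries F) (hr : PowerSeries.constantCoeff r = ψ ⟨s, hs⟩)
    (hr1 : PowerSeries.coeff 1 r = ψ ⟨D s, hDs⟩)
    (hker : ∀ Q : B[X], aeval s Q = 0 → Q.eval₂ φ r = 0)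
    (hB' : adj B s ≤ M) (hD' : ∀ b ∈ adj B s, D b ∈ M) :
    ∃ φ' : adj B s →+* PowerSeries F,
      (∀ b : adj B s, PowerSeries.constantCoeff (φ' b) = ψ ⟨b, hB' b.2⟩) ∧
      (∀ b : adj B s, PowerSeries.coeff 1 (φ' b) = ψ ⟨D b, hD' b b.2⟩) ∧
      ∀ b (hb : b ∈ B0), φ' ⟨b, le_adj B s (hB0 hb)⟩ =
        PowerSeries.C (ψ ⟨b, hB (hB0 hb)⟩) := by
  obtain ⟨φ', hφ'⟩ := ext_hom B s φ r hker
  obtain ⟨e1, e2⟩ := ext_hom_spec hφ'
  refine ⟨φ', ?_, ?_, ?_⟩
  · rintro ⟨x, hx⟩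
    obtain ⟨Q, rfl⟩ := mem_adj.1 hx
    obtain ⟨m0, m1, m2, k0, k1⟩ := key D hB hD hs hDs ψ φ h0 h1 r hr Q
    rw [hφ' Q hx, k0]
  · rintro ⟨x, hx⟩
    obtain ⟨Q, rfl⟩ := mem_adj.1 hx
    obtain ⟨m0, m1, m2, k0, k1⟩ := key D hB hD hs hDs ψ φ h0 h1 r hr Q
    rw [hr1, sub_self, mul_zero, sub_eq_zero] at k1
    rw [hφ' Q hx, k1]
  · intro b hb
    rw [e1 b (hB0 hb), h2 b hb]

theorem good_step [CharZero K] {D : Derivation A0 K K} {B0 B M : Subalgebra A0 K}
    (h : Good D B0 B M) (s : K) :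
    ∃ T : Finset K, ∀ M' : Subalgebra A0 K, M ≤ M' → (∀ t ∈ T, t ∈ M') →
      Good D B0 (adj B s) M' := by
  classical
  by_cases halg : ∃ Q : B[X], Q ≠ 0 ∧ aeval s Q = 0
  · -- `s` algebraic
    obtain ⟨P, hP0, hPs, hmin⟩ := exists_min halg
    have hd := derivative_ne_of_min hP0 hPs hmin
    have hl : P.leadingCoeff ≠ 0 := leadingCoeff_ne_zero.2 hP0
    have hl' : (P.leadingCoeff : K) ≠ 0 := fun h => hl (Subtype.ext h)
    refine ⟨{s, D s, (P.leadingCoeff : K)⁻¹, (aeval s (derivative P))⁻¹}, fun M' hM hT => ?_⟩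
    obtain ⟨hB0, hB, hD, h⟩ := good_mono h hM
    have hs : s ∈ M' := hT s (by simp)
    have hDs : D s ∈ M' := hT (D s) (by simp)
    have hli : (P.leadingCoeff : K)⁻¹ ∈ M' := hT _ (by simp)
    have hdi : (aeval s (derivative P))⁻¹ ∈ M' := hT _ (by simp)
    have hB' : adj B s ≤ M' := adj_le hB hs
    have hD' : adj B s ≤ dsub D M' := adj_le (fun b hb => ⟨hB hb, hD b hb⟩) ⟨hs, hDs⟩
    refine ⟨hB0.trans (le_adj B s), hB', fun b hb => (hD' hb).2, fun F _ ψ => ?_⟩
    obtain ⟨φ, h0, h1, h2⟩ := h F ψ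
    have hψl : ψ ⟨P.leadingCoeff, hB P.leadingCoeff.2⟩ ≠ 0 := by
      intro h
      have e : (⟨P.leadingCoeff, hB P.leadingCoeff.2⟩ : M') * ⟨_, hli⟩ = 1 :=
        Subtype.ext (mul_inv_cancel₀ hl')
      have := congrArg ψ e
      rw [map_mul, h, zero_mul, map_one] at this
      exact zero_ne_one this
    have hc : PowerSeries.constantCoeff (φ P.leadingCoeff) ≠ 0 := by rw [h0]; exact hψl
    have hφl : φ P.leadingCoeff ≠ 0 := by
      intro h
      rw [h, map_zero] at hc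
      exact hc rfl
    obtain ⟨m0, m1, m2, k0, k1⟩ := key D hB hD hs hDs ψ φ h0 h1
      (PowerSeries.C (ψ ⟨s, hs⟩)) (by simp) P
    obtain ⟨n0, n1, n2, l0, l1⟩ := key D hB hD hs hDs ψ φ h0 h1
      (PowerSeries.C (ψ ⟨s, hs⟩)) (by simp) (derivative P)
    have hz : (⟨aeval s P, m0⟩ : M') = 0 := Subtype.ext hPs
    have hdne : ψ ⟨aeval s (derivative P), n0⟩ ≠ 0 := by
      intro h
      have e : (⟨aeval s (derivative P), n0⟩ : M') * ⟨_, hdi⟩ = 1 :=
        Subtype.ext (mul_inv_cancel₀ hd)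
      have := congrArg ψ e
      rw [map_mul, h, zero_mul, map_one] at this
      exact zero_ne_one this
    obtain ⟨r, hr0, hr⟩ := hensel' (P.map φ) (by
      rw [leadingCoeff_map_of_leadingCoeff_ne_zero _ hφl]; exact hc) (ψ ⟨s, hs⟩)
      (by rw [eval_map, k0, hz, map_zero])
      (by rw [derivative_map, eval_map, l0]; exact hdne)
    rw [eval_map] at hr0
    obtain ⟨q0, q1, q2, j0, j1⟩ := key D hB hD hs hDs ψ φ h0 h1 r hr P
    have hr1 : PowerSeries.coeff 1 r = ψ ⟨D s, hDs⟩ := by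
      have e : (⟨D (aeval s P), q1⟩ : M') = 0 := Subtype.ext (by
        show D (aeval s P) = 0
        rw [hPs, map_zero])
      rw [hr0, map_zero, e, map_zero, sub_zero] at j1
      exact sub_eq_zero.1 ((mul_eq_zero.1 j1.symm).resolve_left hdne)
    refine good_ext hB0 hB hD hs hDs ψ φ h0 h1 h2 r hr hr1 ?_ hB' (fun b hb => (hD' hb).2)
    intro Q hQ
    refine eval₂_eq_zero_of_min hP0 hPs hmin ?_ hr0 (Q.natDegree + 1) Q ?_ hQ
    · rw [PowerSeries.isUnit_iff_constantCoeff]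
      exact isUnit_iff_ne_zero.2 hc
    · refine lt_of_le_of_lt degree_le_natDegree ?_
      exact_mod_cast Nat.lt_succ_self _
  · -- `s` transcendental
    push Not at halg
    refine ⟨{s, D s}, fun M' hM hT => ?_⟩
    obtain ⟨hB0, hB, hD, h⟩ := good_mono h hM
    have hs : s ∈ M' := hT s (by simp)
    have hDs : D s ∈ M' := hT (D s) (by simp)
    have hB' : adj B s ≤ M' := adj_le hB hs
    have hD' : adj B s ≤ dsub D M' := adj_le (fun b hb => ⟨hB hb, hD b hb⟩) ⟨hs, hDs⟩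
    refine ⟨hB0.trans (le_adj B s), hB', fun b hb => (hD' hb).2, fun F _ ψ => ?_⟩
    obtain ⟨φ, h0, h1, h2⟩ := h F ψ
    refine good_ext hB0 hB hD hs hDs ψ φ h0 h1 h2
      (PowerSeries.C (ψ ⟨s, hs⟩) + PowerSeries.C (ψ ⟨D s, hDs⟩) * PowerSeries.X) ?_ ?_ ?_ hB'
      (fun b hb => (hD' hb).2)
    · simp
    · rw [map_add, PowerSeries.coeff_C, if_neg one_ne_zero, zero_add, PowerSeries.coeff_C_mul,
        PowerSeries.coeff_one_X, mul_one]
    · intro Q hQ
      by_cases hQ0 : Q = 0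
      · rw [hQ0, eval₂_zero]
      · exact absurd hQ (halg Q hQ0)

theorem good_finset [CharZero K] {D : Derivation A0 K K} {B0 : Subalgebra A0 K}
    (h0 : ∀ b ∈ B0, D b = 0) (hfg : B0.FG) (S : Finset K) :
    ∃ B M : Subalgebra A0 K, Good D B0 B M ∧ M.FG ∧ ∀ s ∈ S, s ∈ B := by
  classical
  induction S using Finset.induction_on with
  | empty => exact ⟨B0, B0, good_start D B0 h0, hfg, by simp⟩
  | insert s S _ ih =>
    obtain ⟨B, M, hG, hM, hS⟩ := ih
    obtain ⟨T, hT⟩ := good_step hG s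
    refine ⟨adj B s, M ⊔ Algebra.adjoin A0 (T : Set K), hT _ le_sup_left (fun t ht => ?_),
      hM.sup (Subalgebra.fg_adjoin_finset T), ?_⟩
    · exact (le_sup_right : _ ≤ M ⊔ Algebra.adjoin A0 (T : Set K))
        (Algebra.subset_adjoin (by exact_mod_cast ht))
    · intro x hx
      rcases Finset.mem_insert.1 hx with rfl | hx
      · exact self_mem_adj B x
      · exact le_adj B s (hS x hx)

end good

section point

variable {A0 K : Type*} [CommRing A0] [Field K] [Algebra A0 K]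

/-- `B` has points over every algebraically closed field over almost every point of `A0` -/
def Pt (B : Subalgebra A0 K) : Prop :=
  ∀ b (hb : b ∈ B), b ≠ 0 → ∃ a : A0, a ≠ 0 ∧ ∀ (F : Type) [Field F] [IsAlgClosed F]
    (ρ : A0 →+* F), ρ a ≠ 0 → ∃ ψ : B →+* F, (∀ x : A0, ψ (algebraMap A0 B x) = ρ x) ∧
      ψ ⟨b, hb⟩ ≠ 0

theorem pt_bot (hinj : Function.Injective (algebraMap A0 K)) : Pt (⊥ : Subalgebra A0 K) := by
  intro b hb hb0
  obtain ⟨a, rfl⟩ := Algebra.mem_bot.1 hb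
  refine ⟨a, ?_, fun F _ _ ρ hρ => ?_⟩
  · rintro rfl
    exact hb0 (map_zero _)
  · let e := Algebra.botEquivOfInjective hinj
    have he : ∀ x : A0, e (algebraMap A0 (⊥ : Subalgebra A0 K) x) = x := fun x => by
      rw [AlgEquiv.commutes]
      rfl
    refine ⟨ρ.comp e.toAlgHom.toRingHom, fun x => ?_, ?_⟩
    · show ρ (e (algebraMap A0 (⊥ : Subalgebra A0 K) x)) = ρ x
      rw [he]
    · have : (⟨algebraMap A0 K a, hb⟩ : (⊥ : Subalgebra A0 K)) =
        algebraMap A0 (⊥ : Subalgebra A0 K) a := rfl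
      rw [this]
      show ρ (e (algebraMap A0 (⊥ : Subalgebra A0 K) a)) ≠ 0
      rw [he]
      exact hρ

theorem pt_adj {B : Subalgebra A0 K} (h : Pt B) (s : K) : Pt (adj B s) := by
  intro b hb hb0
  obtain ⟨Q, rfl⟩ := mem_adj.1 hb
  by_cases halg : ∃ Q : B[X], Q ≠ 0 ∧ aeval s Q = 0
  · obtain ⟨P, hP0, hPs, hmin⟩ := exists_min halg
    have hl : P.leadingCoeff ≠ 0 := leadingCoeff_ne_zero.2 hP0
    have hsalg : IsAlgebraic B s := ⟨P, hP0, hPs⟩
    have hbalg : IsAlgebraic B (aeval s Q) :=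
      Algebra.isAlgebraic_adjoin_singleton_iff.2 hsalg _ (aeval_mem_adjoin_singleton B s)
    obtain ⟨q, hq0, hq⟩ := hbalg.exists_nonzero_coeff_and_aeval_eq_zero
      (mem_nonZeroDivisors_of_ne_zero hb0)
    have hc : aeval (aeval s Q) (divX q) ∈ adj B s := by
      have : aeval (aeval s Q) (divX q) = aeval s ((divX q).comp Q) := by
        rw [aeval_comp]
      rw [this]
      exact aeval_mem_adj B s _
    have hcb : aeval (aeval s Q) (divX q) * aeval s Q + (q.coeff 0 : K) = 0 := by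
      have e := congrArg (aeval (aeval s Q)) (divX_mul_X_add q)
      rw [map_add, map_mul, aeval_X, aeval_C, hq] at e
      exact e
    have hql : (q.coeff 0 * P.leadingCoeff : B) ≠ 0 := mul_ne_zero hq0 hl
    obtain ⟨a, ha, hF⟩ := h _ (q.coeff 0 * P.leadingCoeff : B).2 (fun h => hql (Subtype.ext h))
    refine ⟨a, ha, fun F _ _ ρ hρ => ?_⟩
    obtain ⟨ψ, hψ, hψ0⟩ := hF F ρ hρ
    have e1 : ψ (q.coeff 0 * P.leadingCoeff) ≠ 0 := hψ0
    rw [map_mul] at e1
    have e2 : ψ (q.coeff 0) ≠ 0 := left_ne_zero_of_mul e1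
    have e3 : ψ P.leadingCoeff ≠ 0 := right_ne_zero_of_mul e1
    obtain ⟨ξ, hξ⟩ := IsAlgClosed.exists_root (P.map ψ) (by
      rw [degree_map_eq_of_leadingCoeff_ne_zero _ e3, degree_eq_natDegree hP0]
      have := natDegree_pos_of_min hP0 hPs
      exact_mod_cast this.ne')
    rw [IsRoot, eval_map] at hξ
    obtain ⟨ψ', hψ'⟩ := ext_hom B s ψ ξ (fun R hR => by
      refine eval₂_eq_zero_of_min hP0 hPs hmin (isUnit_iff_ne_zero.2 e3) hξ (R.natDegree + 1)
        R ?_ hR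
      refine lt_of_le_of_lt degree_le_natDegree ?_
      exact_mod_cast Nat.lt_succ_self _)
    obtain ⟨f1, f2⟩ := ext_hom_spec hψ'
    refine ⟨ψ', fun x => ?_, fun h0 => ?_⟩
    · rw [← hψ x]
      exact f1 _ (algebraMap_mem B x)
    · have e : (⟨_, hc⟩ : adj B s) * ⟨_, hb⟩ + ⟨_, le_adj B s (q.coeff 0).2⟩ = 0 :=
        Subtype.ext hcb
      have e' := congrArg ψ' e
      rw [map_add, map_mul, h0, mul_zero, zero_add, map_zero, f1 _ (q.coeff 0).2] at e'
      exact e2 e'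
  · push Not at halg
    have hQ0 : Q ≠ 0 := by
      rintro rfl
      exact hb0 (map_zero _)
    have hl : Q.leadingCoeff ≠ 0 := leadingCoeff_ne_zero.2 hQ0
    obtain ⟨a, ha, hF⟩ := h _ Q.leadingCoeff.2 (fun h => hl (Subtype.ext h))
    refine ⟨a, ha, fun F _ _ ρ hρ => ?_⟩
    obtain ⟨ψ, hψ, hψ0⟩ := hF F ρ hρ
    have hQψ : Q.map ψ ≠ 0 := by
      intro h
      have := congrArg (fun R => coeff R Q.natDegree) h
      simp only [coeff_map, coeff_natDegree, coeff_zero] at this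
      exact hψ0 this
    have hinf : Infinite F := IsAlgClosed.instInfinite
    obtain ⟨ξ, hξ⟩ : ∃ ξ : F, (Q.map ψ).eval ξ ≠ 0 := by
      by_contra hcon
      push Not at hcon
      exact hQψ (Polynomial.funext (fun ξ => by rw [hcon ξ, eval_zero]))
    obtain ⟨ψ', hψ'⟩ := ext_hom B s ψ ξ (fun R hR => by
      by_cases hR0 : R = 0
      · rw [hR0, eval₂_zero]
      · exact absurd hR (halg R hR0))
    obtain ⟨f1, f2⟩ := ext_hom_spec hψ'
    refine ⟨ψ', fun x => ?_, ?_⟩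
    · rw [← hψ x]
      exact f1 _ (algebraMap_mem B x)
    · rw [hψ' Q hb, ← eval_map]
      exact hξ

theorem adjoin_insert_eq (s : K) (T : Set K) :
    Algebra.adjoin A0 (insert s T) = adj (Algebra.adjoin A0 T) s := by
  apply le_antisymm
  · apply Algebra.adjoin_le
    intro x hx
    rcases hx with rfl | hx
    · exact self_mem_adj _ _
    · exact le_adj _ _ (Algebra.subset_adjoin hx)
  · apply adj_le
    · exact Algebra.adjoin_mono (Set.subset_insert _ _)
    · exact Algebra.subset_adjoin (Set.mem_insert _ _)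

theorem pt_fg (hinj : Function.Injective (algebraMap A0 K)) {B : Subalgebra A0 K} (hB : B.FG) :
    Pt B := by
  classical
  obtain ⟨T, rfl⟩ := hB
  induction T using Finset.induction_on with
  | empty =>
    rw [Finset.coe_empty, Algebra.adjoin_empty]
    exact pt_bot hinj
  | insert s T _ ih =>
    rw [Finset.coe_insert, adjoin_insert_eq]
    exact pt_adj ih s

end point

/-- **LIFT lemma** -/
theorem lift {A0 K : Type*} [CommRing A0] [Field K] [CharZero K] [Algebra A0 K]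
    (hinj : Function.Injective (algebraMap A0 K)) (D : Derivation A0 K K) (S S0 G : Finset K)
    (hS0 : ∀ c ∈ S0, D c = 0) (hG : ∀ g ∈ G, g ≠ 0) :
    ∃ a : A0, a ≠ 0 ∧ ∀ (F : Type) [Field F] [IsAlgClosed F] (ρ : A0 →+* F), ρ a ≠ 0 →
      ∃ (B M : Subalgebra A0 K) (hB : B ≤ M) (hD : ∀ b ∈ B, D b ∈ M) (ψ : M →+* F)
        (φ : B →+* PowerSeries F),
        (∀ s ∈ S, s ∈ B) ∧ (∀ s ∈ S0, s ∈ B) ∧ (∀ s ∈ G, s ∈ B) ∧
        (∀ x : A0, ψ (algebraMap A0 M x) = ρ x) ∧
        (∀ x : A0, φ (algebraMap A0 B x) = PowerSeries.C (ρ x)) ∧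
        (∀ b (hb : b ∈ B), PowerSeries.constantCoeff (φ ⟨b, hb⟩) = ψ ⟨b, hB hb⟩) ∧
        (∀ b (hb : b ∈ B), PowerSeries.coeff 1 (φ ⟨b, hb⟩) = ψ ⟨D b, hD b hb⟩) ∧
        (∀ c ∈ S0, ∀ hc : c ∈ B, φ ⟨c, hc⟩ = PowerSeries.C (ψ ⟨c, hB hc⟩)) ∧
        (∀ g ∈ G, ∀ hg : g ∈ M, ψ ⟨g, hg⟩ ≠ 0) := by
  classical
  have hB0 : ∀ b ∈ Algebra.adjoin A0 (S0 : Set K), D b = 0 := by
    intro b hb
    induction hb using Algebra.adjoin_induction with
    | mem x hx => exact hS0 x (by exact_mod_cast hx)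
    | algebraMap r => rw [Derivation.map_algebraMap]
    | add x y _ _ hx hy => rw [map_add, hx, hy, add_zero]
    | mul x y _ _ hx hy => rw [Derivation.leibniz, hx, hy, smul_zero, smul_zero, add_zero]
  obtain ⟨B, M, hG', hM, hS⟩ := good_finset hB0 (Subalgebra.fg_adjoin_finset S0) (S ∪ G)
  obtain ⟨Gi, hGi⟩ : ∃ Gi : Finset K, Gi = G.image (fun g => g⁻¹) := ⟨_, rfl⟩
  obtain ⟨M', hM'⟩ : ∃ M' : Subalgebra A0 K, M' = M ⊔ Algebra.adjoin A0 (Gi : Set K) := ⟨_, rfl⟩
  have hle : M ≤ M' := by rw [hM']; exact le_sup_left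
  have hMfg : M'.FG := by rw [hM']; exact hM.sup (Subalgebra.fg_adjoin_finset Gi)
  obtain ⟨hB0', hB, hD, hlift⟩ := good_mono hG' hle
  obtain ⟨a, ha, hF⟩ := pt_fg hinj hMfg 1 (one_mem M') one_ne_zero
  refine ⟨a, ha, fun F _ _ ρ hρ => ?_⟩
  obtain ⟨ψ, hψ, -⟩ := hF F ρ hρ
  obtain ⟨φ, h1, h2, h3⟩ := hlift F ψ
  refine ⟨B, M', hB, hD, ψ, φ, fun s hs => hS s (Finset.mem_union_left _ hs),
    fun s hs => hB0' (Algebra.subset_adjoin (by exact_mod_cast hs)),
    fun s hs => hS s (Finset.mem_union_right _ hs), hψ, fun x => ?_, fun b hb => h1 ⟨b, hb⟩,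
    fun b hb => h2 ⟨b, hb⟩, fun c hc hcB => ?_, fun g hg hgM => ?_⟩
  · rw [← hψ x]
    exact h3 _ (algebraMap_mem _ x)
  · exact h3 c (Algebra.subset_adjoin (by exact_mod_cast hc))
  · intro h0
    have hgi : g⁻¹ ∈ M' := by
      rw [hM']
      refine (le_sup_right : _ ≤ M ⊔ Algebra.adjoin A0 (Gi : Set K)) (Algebra.subset_adjoin ?_)
      rw [hGi]
      exact_mod_cast Finset.mem_image_of_mem _ hg
    have e : (⟨g, hgM⟩ : M') * ⟨g⁻¹, hgi⟩ = 1 := Subtype.ext (mul_inv_cancel₀ (hG g hg))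
    have := congrArg ψ e
    rw [map_mul, h0, zero_mul, map_one] at this
    exact zero_ne_one this

end Pool.Agent.Lib.MP_524519_ag.DU4.H63
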